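import Pool.Agent.Lib.MP_cef6bb_co.Main

open Metric

namespace Pool.Agent.Results.MP_cef6bb_co.EtaTau

/-- The vertex set of the edge `e` inside the disjoint union of the three classes. -/
def verts {ι V₁ V₂ V₃ : Type} (edge : ι → V₁ × V₂ × V₃) (e : ι) : Set (V₁ ⊕ V₂ ⊕ V₃) :=
  {Sum.inl (edge e).1, Sum.inr (Sum.inl (edge e).2.1), Sum.inr (Sum.inr (edge e).2.2)}

/-- The cover number: the least size of a set of vertices meeting every edge. -/
noncomputable def tau {ι V₁ V₂ V₃ : Type} (edge : ι → V₁ × V₂ × V₃) : ℕ :=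
  sInf {k | ∃ C : Finset (V₁ ⊕ V₂ ⊕ V₃), C.card = k ∧ ∀ e, ∃ v ∈ C, v ∈ verts edge e}

/-- The geometric realization of the matching complex: convex combinations of edges whose
support is a matching. -/
def matchingComplex {ι V₁ V₂ V₃ : Type} [Fintype ι] (edge : ι → V₁ × V₂ × V₃) : Set (ι → ℝ) :=
  {x | (∀ e, 0 ≤ x e) ∧ ∑ e, x e = 1 ∧
    ∀ e f, x e ≠ 0 → x f ≠ 0 → e ≠ f → Disjoint (verts edge e) (verts edge f)}

/-- Every continuous map from the unit sphere of `ℝ^d` to `X` extends to the closed unit ball. -/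
def ExtendsOver (X : Type) [TopologicalSpace X] (d : ℕ) : Prop :=
  ∀ f : C(sphere (0 : EuclideanSpace ℝ (Fin d)) 1, X),
    ∃ F : C(closedBall (0 : EuclideanSpace ℝ (Fin d)) 1, X),
      ∀ x : sphere (0 : EuclideanSpace ℝ (Fin d)) 1,
        F ⟨x, sphere_subset_closedBall x.2⟩ = f x

/-- `X` is `k`-connected: maps `S^i → X` extend to `B^(i+1)` for `-1 ≤ i ≤ k`. -/
def IsConn (X : Type) [TopologicalSpace X] (k : ℤ) : Prop :=
  ∀ i : ℤ, -1 ≤ i → i ≤ k → ExtendsOver X (i + 1).toNat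

/-- The connectedness parameter `conn + 2`, with value `0` for the empty space and `⊤` for a
space that is `k`-connected for all `k`. -/
noncomputable def eta (X : Type) [TopologicalSpace X] : ℕ∞ :=
  ⨆ (k : ℤ) (_ : -1 ≤ k ∧ IsConn X k), ((k + 2).toNat : ℕ∞)

open Pool.Agent.Lib.MP_cef6bb_co in
/-- For every 3-partite 3-graph, `η(M(H)) ≥ τ(H) / 4`. -/
theorem result {ι V₁ V₂ V₃ : Type} [Fintype ι] [Fintype V₁] [Fintype V₂] [Fintype V₃]
    (edge : ι → V₁ × V₂ × V₃) :
    (tau edge : ℕ∞) ≤ 4 * eta (matchingComplex edge) := by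
  classical
  rcases Nat.eq_zero_or_pos (tau edge) with h0 | hpos
  · rw [h0]
    simp
  obtain ⟨j, hj1, hj2⟩ : ∃ j, 4 * j < tau edge ∧ tau edge ≤ 4 * (j + 1) :=
    ⟨(tau edge - 1) / 4, by omega, by omega⟩
  have hτ : ∀ (A₁ : Finset V₁) (A₂ : Finset V₂) (A₃ : Finset V₃),
      A₁.card + A₂.card + A₃.card ≤ 4 * j →
        ∃ a, (edge a).1 ∉ A₁ ∧ (edge a).2.1 ∉ A₂ ∧ (edge a).2.2 ∉ A₃ := by
    intro A₁ A₂ A₃ hA
    by_contra hno
    have hle : tau edge ≤ (A₁.disjSum (A₂.disjSum A₃)).card := by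
      refine Nat.sInf_le ⟨A₁.disjSum (A₂.disjSum A₃), rfl, fun e => ?_⟩
      by_cases h1 : (edge e).1 ∈ A₁
      · exact ⟨Sum.inl (edge e).1, Finset.inl_mem_disjSum.mpr h1, Or.inl rfl⟩
      · by_cases h2 : (edge e).2.1 ∈ A₂
        · exact ⟨Sum.inr (Sum.inl (edge e).2.1),
            Finset.inr_mem_disjSum.mpr (Finset.inl_mem_disjSum.mpr h2), Or.inr (Or.inl rfl)⟩
        · by_cases h3 : (edge e).2.2 ∈ A₃
          · exact ⟨Sum.inr (Sum.inr (edge e).2.2),
              Finset.inr_mem_disjSum.mpr (Finset.inr_mem_disjSum.mpr h3), Or.inr (Or.inr rfl)⟩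
          · exact absurd ⟨e, h1, h2, h3⟩ hno
    rw [Finset.card_disjSum, Finset.card_disjSum] at hle
    omega
  have hX : matchingComplex edge =
      Rl (KT (fun a => (edge a).1) (fun a => (edge a).2.1) (fun a => (edge a).2.2)
        Finset.univ) := by
    ext x
    constructor
    · rintro ⟨h1, h2, h3⟩
      refine ⟨h1, h2, Finset.subset_univ _, fun a ha b hb hG => ?_⟩
      have hd := h3 a b (Finset.mem_filter.mp ha).2 (Finset.mem_filter.mp hb).2 hG.1
      rw [Set.disjoint_left] at hd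
      rcases hG.2 with h | h | h
      · exact hd (Or.inl rfl) (Or.inl (congrArg Sum.inl h))
      · exact hd (Or.inr (Or.inl rfl)) (Or.inr (Or.inl (congrArg (Sum.inr ∘ Sum.inl) h)))
      · exact hd (Or.inr (Or.inr rfl)) (Or.inr (Or.inr (congrArg (Sum.inr ∘ Sum.inr) h.1)))
    · rintro ⟨h1, h2, h3⟩
      refine ⟨h1, h2, fun a b ha hb hab => ?_⟩
      have hG := h3.2 a (Finset.mem_filter.mpr ⟨Finset.mem_univ a, ha⟩) b
        (Finset.mem_filter.mpr ⟨Finset.mem_univ b, hb⟩)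
      rw [Set.disjoint_left]
      intro v hv hv'
      apply hG
      refine ⟨hab, ?_⟩
      simp only [verts, Set.mem_insert_iff, Set.mem_singleton_iff] at hv hv'
      rcases hv with rfl | rfl | rfl
      · left
        simpa using hv'
      · right
        left
        simpa using hv'
      · right
        right
        exact ⟨by simpa using hv', Finset.mem_univ _⟩
  have hconn : IsConn (matchingComplex edge) ((j : ℤ) - 1) := by
    intro i _ hi f
    refine bundled_of_sext _ _ ?_ f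
    rw [hX]
    exact main_sext _ _ _ Finset.univ j hτ _ (by omega)
  have heta : ((j + 1 : ℕ) : ℕ∞) ≤ eta (matchingComplex edge) := by
    have e : ((j : ℤ) - 1 + 2).toNat = j + 1 := by omega
    rw [← e]
    exact le_iSup₂_of_le (f := fun (k : ℤ) (_ : -1 ≤ k ∧ IsConn (matchingComplex edge) k) =>
      ((k + 2).toNat : ℕ∞)) ((j : ℤ) - 1) ⟨by omega, hconn⟩ le_rfl
  calc (tau edge : ℕ∞) ≤ ((4 * (j + 1) : ℕ) : ℕ∞) := by exact_mod_cast hj2
    _ = 4 * ((j + 1 : ℕ) : ℕ∞) := by push_cast; rfl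
    _ ≤ 4 * eta (matchingComplex edge) := by gcongr

end Pool.Agent.Results.MP_cef6bb_co.EtaTau
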